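import Pool.Agent.Lib.MP_1d35f7_co.Potential

set_option autoImplicit false

namespace Pool.Agent.Retired.MP_1d35f7_co.Balanced

open Pool.Agent.Lib.MP_1d35f7_co.Potential

/-- If both sides have at least `256 n⁴` vertices and `ab ≥ 2⁷² 4ⁿ`, then every 2-colouring of the
edges of `K_{a,b}` contains a monochromatic `K_{n,n}`.  In particular the diagonal bipartite
Ramsey number is `O(2ⁿ)`. -/
theorem result :
    ∀ n a b : ℕ, 256 * n ^ 4 ≤ a → 256 * n ^ 4 ≤ b → 2 ^ 72 * 4 ^ n ≤ a * b →
      ∀ c : Fin a → Fin b → Bool,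
        ∃ S : Finset (Fin a), ∃ T : Finset (Fin b), ∃ col : Bool,
          S.card = n ∧ T.card = n ∧ ∀ i ∈ S, ∀ j ∈ T, c i j = col := by
  intro n a b ha hb hab c
  have hsum : edges (fun i j => c i j = true) Finset.univ Finset.univ +
      edges (fun i j => c i j = false) Finset.univ Finset.univ = (a : ℝ) * b := by
    unfold edges
    rw [← Finset.sum_add_distrib]
    calc _ = ∑ _i : Fin a, ∑ _j : Fin b, (1 : ℝ) := by
          refine Finset.sum_congr rfl fun i _ => ?_
          rw [← Finset.sum_add_distrib]
          refine Finset.sum_congr rfl fun j _ => ?_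
          rcases Bool.eq_false_or_eq_true (c i j) with h | h <;> simp [h]
      _ = _ := by simp
  have hex : ∃ col : Bool, (a : ℝ) * b ≤
      2 * edges (fun i j => c i j = col) Finset.univ Finset.univ := by
    by_contra h
    push Not at h
    have h1 := h true
    have h2 := h false
    linarith
  obtain ⟨col, hcol⟩ := hex
  have e1 : 16 * (n + n) ^ 4 = 256 * n ^ 4 := by ring
  have e2 : 2 ^ (n + n) = 4 ^ n := by rw [pow_add, ← mul_pow]; norm_num
  obtain ⟨S, -, T, -, hS, hT, h⟩ := exists_biclique_of_dense (fun i j => c i j = col) n n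
    Finset.univ Finset.univ (by simpa [e1] using ha) (by simpa [e1] using hb)
    (by rw [e2, Finset.card_fin, Finset.card_fin]; exact hab) (by simpa using hcol)
  exact ⟨S, T, col, hS, hT, h⟩

end Pool.Agent.Retired.MP_1d35f7_co.Balanced
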