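import Pool.Agent.Lib.MP_1d35f7_co.ExF

set_option autoImplicit false

namespace Pool.Agent.Results.MP_1d35f7_co.Exchange

open Finset Pool.Agent.Lib.MP_1d35f7_co.Ex

/-- Let `γ ≥ log₂ n` with `2¹¹ γ³ ≤ n`.  If `a ≥ 2³² γ⁷ 2ⁿ / n` and `b ≥ 2ⁿ / 2^γ`, then every
2-colouring of the edges of `K_{a,b}` contains a monochromatic `K_{n,n}`.  In particular the
diagonal bipartite Ramsey number is `O(2ⁿ (log n)⁷ / n)`. -/
theorem result :
    ∀ n γ a b : ℕ, 0 < γ → 2 ^ 11 * γ ^ 3 ≤ n → n ≤ 2 ^ γ → 2 ^ 32 * γ ^ 7 * 2 ^ n ≤ n * a →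
      2 ^ n ≤ 2 ^ γ * b → ∀ c : Fin a → Fin b → Bool,
        ∃ S : Finset (Fin a), ∃ T : Finset (Fin b), ∃ col : Bool,
          S.card = n ∧ T.card = n ∧ ∀ i ∈ S, ∀ j ∈ T, c i j = col := by
  intro n γ a b hγ h1 h2 ha hb c
  have hsum : ∑ i : Fin a, (univ.filter fun j => c i j = true).card +
      ∑ i : Fin a, (univ.filter fun j => c i j = false).card = a * b := by
    rw [← sum_add_distrib]
    calc _ = ∑ _i : Fin a, b := by
          refine sum_congr rfl fun i _ => ?_
          have := card_filter_add_card_filter_not (s := (univ : Finset (Fin b)))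
            fun j => c i j = true
          simpa using this
      _ = _ := by simp
  obtain ⟨col, hcol⟩ : ∃ col : Bool,
      a * b ≤ 2 * ∑ i : Fin a, (univ.filter fun j => c i j = col).card := by
    by_contra h
    push Not at h
    have h1 := h true
    have h2 := h false
    omega
  obtain ⟨S, -, T, -, hS, hT, h⟩ := main (r := fun i j => c i j = col) univ univ hγ h1 h2
    (by simpa using ha) (by simpa using hb) (by simpa using hcol)
  exact ⟨S, T, col, hS, hT, h⟩

end Pool.Agent.Results.MP_1d35f7_co.Exchange
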